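import Pool.Agent.V1199.CcsSuper

open Set

namespace Pool.Agent.Results.MP_d10958_an.NoCcsDelta

/-- `S` is a slice of the closed unit ball of `X`, as in the problem: the functional `f` is
arbitrary and `M` is the supremum of `Re f` over the closed unit ball. -/
def IsSlice (𝕜 : Type*) [RCLike 𝕜] {X : Type*} [NormedAddCommGroup X] [NormedSpace 𝕜 X]
    (S : Set X) : Prop :=
  ∃ f : StrongDual 𝕜 X, ∃ δ : ℝ, 0 < δ ∧
    S = {z : X | ‖z‖ ≤ 1 ∧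
      sSup ((fun y : X => RCLike.re (f y)) '' {y : X | ‖y‖ ≤ 1}) - δ < RCLike.re (f z)}

/-- `C` is a convex combination of slices of the closed unit ball of `X`. -/
def IsCcs (𝕜 : Type*) [RCLike 𝕜] {X : Type*} [NormedAddCommGroup X] [NormedSpace 𝕜 X]
    (C : Set X) : Prop :=
  ∃ n : ℕ, 1 ≤ n ∧ ∃ (S : Fin n → Set X) (c : Fin n → ℝ),
    (∀ i, IsSlice 𝕜 (S i)) ∧ (∀ i, 0 < c i ∧ c i ≤ 1) ∧ ∑ i, c i = 1 ∧
    C = {w : X | ∃ z : Fin n → X, (∀ i, z i ∈ S i) ∧ w = ∑ i, ((c i : ℝ) : 𝕜) • z i}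

/-- `x` is a ccs Delta-point of `X`. -/
def IsCcsDelta (𝕜 : Type*) [RCLike 𝕜] {X : Type*} [NormedAddCommGroup X] [NormedSpace 𝕜 X]
    (x : X) : Prop :=
  ‖x‖ = 1 ∧ ∀ C : Set X, IsCcs 𝕜 C → x ∈ C → sSup ((fun y => ‖x - y‖) '' C) = 2

/-- Property (A): norm-bounded finite-rank approximation of the identity with constant `< 2`. -/
def PropertyA (𝕜 : Type*) [RCLike 𝕜] (X : Type*) [NormedAddCommGroup X] [NormedSpace 𝕜 X] :
    Prop :=
  ∃ A : Set (X →L[𝕜] X), (∀ T ∈ A, FiniteDimensional 𝕜 (LinearMap.range (T : X →ₗ[𝕜] X))) ∧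
    (∃ K : ℝ, K < 2 ∧ ∀ T ∈ A, ‖ContinuousLinearMap.id 𝕜 X - T‖ ≤ K) ∧
    ∀ ε : ℝ, 0 < ε → ∀ x : X, ∃ T ∈ A, ‖x - T x‖ < ε

theorem isSlice_of {𝕜 : Type*} [RCLike 𝕜] {X : Type*} [NormedAddCommGroup X] [NormedSpace 𝕜 X]
    {x : X} (hx : ‖x‖ ≤ 1) (g : StrongDual 𝕜 X) (t : ℝ) (ht : t < RCLike.re (g x)) :
    IsSlice 𝕜 {z : X | ‖z‖ ≤ 1 ∧ t < RCLike.re (g z)} := by
  set M := sSup ((fun y : X => RCLike.re (g y)) '' {y : X | ‖y‖ ≤ 1}) with hM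
  have hbdd : BddAbove ((fun y : X => RCLike.re (g y)) '' {y : X | ‖y‖ ≤ 1}) := by
    refine ⟨‖g‖, ?_⟩
    rintro _ ⟨y, hy, rfl⟩
    calc RCLike.re (g y) ≤ ‖g y‖ := RCLike.re_le_norm _
      _ ≤ ‖g‖ * ‖y‖ := g.le_opNorm _
      _ ≤ ‖g‖ := mul_le_of_le_one_right (norm_nonneg _) hy
  have hle : RCLike.re (g x) ≤ M := le_csSup hbdd ⟨x, hx, rfl⟩
  refine ⟨g, M - t, by linarith, ?_⟩
  rw [← hM, sub_sub_cancel]

/-- A finite-rank operator is controlled by finitely many functionals. -/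
theorem finite_rank_control {𝕜 : Type*} [RCLike 𝕜] {X : Type*} [NormedAddCommGroup X]
    [NormedSpace 𝕜 X] (T : X →L[𝕜] X)
    (hT : FiniteDimensional 𝕜 (LinearMap.range (T : X →ₗ[𝕜] X))) (η : ℝ) (hη : 0 < η) :
    ∃ (F : Finset (StrongDual 𝕜 X)) (ε : ℝ), 0 < ε ∧
      ∀ v : X, (∀ f ∈ F, ‖f v‖ < ε) → ‖T v‖ < η := by
  classical
  haveI := hT
  let R := LinearMap.range (T : X →ₗ[𝕜] X)
  let T' : X →L[𝕜] R := T.codRestrict R (fun v => ⟨v, rfl⟩)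
  let b := Module.finBasis 𝕜 R
  let φ : Fin (Module.finrank 𝕜 R) → StrongDual 𝕜 X := fun i =>
    (LinearMap.toContinuousLinearMap (b.coord i)).comp T'
  set B : ℝ := ∑ i, ‖(b i : X)‖ with hB
  have hB0 : 0 ≤ B := Finset.sum_nonneg fun i _ => norm_nonneg _
  refine ⟨Finset.univ.image φ, η / (B + 1), by positivity, fun v hv => ?_⟩
  have hexp : T v = ∑ i, (φ i v) • (b i : X) := by
    have h1 := b.sum_repr (T' v)
    have h2 : ((∑ i, b.repr (T' v) i • b i : R) : X) = T v := by rw [h1]; rfl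
    rw [← h2]
    push_cast
    rfl
  rw [hexp]
  calc ‖∑ i, (φ i v) • (b i : X)‖ ≤ ∑ i, ‖(φ i v) • (b i : X)‖ := norm_sum_le _ _
    _ ≤ ∑ i, (η / (B + 1)) * ‖(b i : X)‖ := by
        refine Finset.sum_le_sum fun i _ => ?_
        rw [norm_smul]
        exact mul_le_mul_of_nonneg_right
          (hv _ (Finset.mem_image_of_mem _ (Finset.mem_univ i))).le (norm_nonneg _)
    _ = (η / (B + 1)) * B := by rw [← Finset.mul_sum]
    _ < η := by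
        rw [div_mul_eq_mul_div, div_lt_iff₀ (by positivity)]
        nlinarith

/-- No Banach space with property (A) contains a ccs Delta-point. -/
theorem result (𝕜 : Type*) [RCLike 𝕜] (X : Type*) [NormedAddCommGroup X] [NormedSpace 𝕜 X]
    [CompleteSpace X] (hA : PropertyA 𝕜 X) : ¬ ∃ x : X, IsCcsDelta 𝕜 x := by
  rintro ⟨x, h⟩
  obtain ⟨A, hfin, ⟨K, hK2, hK⟩, happ⟩ := hA
  have hx := h.1
  set η : ℝ := (2 - K) / 4 with hη
  have hη0 : 0 < η := by rw [hη]; linarith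
  obtain ⟨T, hTA, hTx⟩ := happ η hη0 x
  obtain ⟨F, ε, hε, hF⟩ := finite_rank_control T (hfin T hTA) η hη0
  obtain ⟨y, hy1, hyF, hyx⟩ := Pool.Agent.V1199.ccs_super_core (𝕜 := 𝕜) x hx (by
      intro m hm g t hgt θ' hθ'
      have hm' : (0 : ℝ) < m := by exact_mod_cast hm
      have hsum1 : ∑ _i : Fin m, ((m : ℝ)⁻¹) = 1 := by
        rw [Finset.sum_const, Finset.card_univ, Fintype.card_fin, nsmul_eq_mul,
          mul_inv_cancel₀ hm'.ne']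
      have hm1 : (m : ℝ)⁻¹ ≤ 1 := by
        apply inv_le_one_of_one_le₀
        exact_mod_cast hm
      let C : Set X := {w : X | ∃ z : Fin m → X,
          (∀ i, z i ∈ {z : X | ‖z‖ ≤ 1 ∧ t i < RCLike.re (g i z)}) ∧
          w = ∑ i, (((m : ℝ)⁻¹ : ℝ) : 𝕜) • z i}
      have hCc : IsCcs 𝕜 C :=
        ⟨m, hm, fun i => {z : X | ‖z‖ ≤ 1 ∧ t i < RCLike.re (g i z)}, fun _ => (m : ℝ)⁻¹,
          fun i => isSlice_of hx.le (g i) (t i) (hgt i), fun _ => ⟨inv_pos.mpr hm', hm1⟩,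
          hsum1, rfl⟩
      have hxC : x ∈ C := ⟨fun _ => x, fun i => ⟨hx.le, hgt i⟩, by
          rw [← Finset.sum_smul, ← RCLike.ofReal_sum, hsum1, RCLike.ofReal_one, one_smul]⟩
      have hC := h.2 C hCc hxC
      have hne : ((fun y => ‖x - y‖) '' C).Nonempty := ⟨_, ⟨x, hxC, rfl⟩⟩
      obtain ⟨_, ⟨w, ⟨z, hz, rfl⟩, rfl⟩, hlt⟩ := exists_lt_of_lt_csSup hne
        (show (2 - θ' : ℝ) < _ by rw [hC]; linarith)
      exact ⟨z, hz, hlt⟩) F ε hε η hη0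
  have hTv : ‖T (y - x)‖ < η := hF (y - x) (fun f hf => by rw [map_sub]; exact hyF f hf)
  have h1 : ‖y - T y‖ ≤ K := by
    have : y - T y = (ContinuousLinearMap.id 𝕜 X - T) y := rfl
    rw [this]
    have hK0 : 0 ≤ K := (norm_nonneg _).trans (hK T hTA)
    calc ‖(ContinuousLinearMap.id 𝕜 X - T) y‖ ≤ ‖ContinuousLinearMap.id 𝕜 X - T‖ * ‖y‖ :=
          ContinuousLinearMap.le_opNorm _ _
      _ ≤ K * 1 := mul_le_mul (hK T hTA) hy1 (norm_nonneg _) hK0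
      _ = K := mul_one K
  have h2 : x - y = (x - T x) - T (y - x) - (y - T y) := by
    rw [map_sub]; abel
  have h3 : ‖x - y‖ ≤ ‖x - T x‖ + ‖T (y - x)‖ + ‖y - T y‖ := by
    rw [h2]
    exact (norm_sub_le _ _).trans (add_le_add (norm_sub_le _ _) le_rfl)
  rw [hη] at *
  linarith

end Pool.Agent.Results.MP_d10958_an.NoCcsDelta
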